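import Mathlib

/-!
# A hole in the spectrum of the sizes of the minimal defining sets of a design: definitions

Simple `t`-`(v, k, λ)` designs on the point set `Fin v`, defining sets, minimal defining sets (with
respect to inclusion), the spectrum of a design, holes.
-/

set_option autoImplicit false

namespace Pool.Agent.W946.Hole

/-- `B` is the set of the blocks of a simple `t`-`(v, k, lam)` design on the points `Fin v`: the blocks
have `k` points and every set of `t` points lies in exactly `lam` blocks. -/
def IsDesign (t v k lam : ℕ) (B : Finset (Finset (Fin v))) : Prop :=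
  (∀ b ∈ B, b.card = k) ∧
    ∀ T : Finset (Fin v), T.card = t → (B.filter fun b => T ⊆ b).card = lam

/-- `S` is a defining set of the design `B`: `B` is the only `t`-`(v, k, lam)` design which
contains `S`. -/
def IsDefining (t v k lam : ℕ) (B S : Finset (Finset (Fin v))) : Prop :=
  S ⊆ B ∧ ∀ B' : Finset (Finset (Fin v)), IsDesign t v k lam B' → S ⊆ B' → B' = B

/-- `S` is a minimal defining set of `B`: no proper subset of `S` is a defining set. -/
def IsMinDefining (t v k lam : ℕ) (B S : Finset (Finset (Fin v))) : Prop :=
  IsDefining t v k lam B S ∧ ∀ S' : Finset (Finset (Fin v)), S' ⊂ S → ¬ IsDefining t v k lam B S'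

/-- The spectrum of the design `B`: the sizes of its minimal defining sets. -/
def Spec (t v k lam : ℕ) (B : Finset (Finset (Fin v))) : Set ℕ :=
  {m | ∃ S : Finset (Finset (Fin v)), IsMinDefining t v k lam B S ∧ S.card = m}

/-- `A` has a hole: some integer strictly between two elements of `A` is not in `A`. -/
def HasHole (A : Set ℕ) : Prop := ∃ a ∈ A, ∃ c ∈ A, ∃ m : ℕ, a < m ∧ m < c ∧ m ∉ A

end Pool.Agent.W946.Hole
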