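import Pool.Agent.W946.Hole.Search

/-!
# Correctness of the search
-/

set_option autoImplicit false

namespace Pool.Agent.W946.Hole

theorem force_eq (n : ℕ) (k : ℕ → Bool) : force n k = k n := by
  cases n <;> rfl

/-- the value computed by `crit` -/
def critL (c : ℕ) : List (ℕ × List ℕ) → ℕ → ℕ
  | [], a => a
  | m :: l, a =>
    if Nat.beq (Nat.land (Nat.land m.1 c) (Nat.land m.1 c - 1)) 0 = true then
      critL c l (Nat.lor a (Nat.land m.1 c)) else critL c l a

theorem crit_eq (c : ℕ) (k : ℕ → Bool) (l : List (ℕ × List ℕ)) :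
    ∀ a, crit c k l a = k (critL c l a) := by
  induction l with
  | nil => intro a; rfl
  | cons m l ih =>
    intro a
    have h : crit c k (m :: l) a = force (Nat.land m.1 c) fun y =>
      Bool.rec (crit c k l a) (force (Nat.lor a y) (crit c k l))
        (Nat.beq (Nat.land y (y - 1)) 0) := rfl
    rw [h, force_eq, critL]
    cases hb : Nat.beq (Nat.land (Nat.land m.1 c) (Nat.land m.1 c - 1)) 0
    · simp only [Bool.false_eq_true, if_false]
      exact ih a
    · simp only [if_true]
      rw [force_eq]
      exact ih _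

/-- the values computed by `unc` -/
def uncL (c : ℕ) : List (ℕ × List ℕ) → ℕ → List ℕ → ℕ × List ℕ
  | [], n, b => (n, b)
  | m :: l, n, b => if Nat.beq (Nat.land m.1 c) 0 = true then uncL c l (n + 1) m.2
      else uncL c l n b

theorem unc_eq (c : ℕ) (k : ℕ → List ℕ → Bool) (l : List (ℕ × List ℕ)) :
    ∀ n b, unc c k l n b = k (uncL c l n b).1 (uncL c l n b).2 := by
  induction l with
  | nil => intro n b; rfl
  | cons m l ih =>
    intro n b
    have h : unc c k (m :: l) n b = Bool.rec (unc c k l n b)
      (force (Nat.succ n) (fun n => unc c k l n m.2)) (Nat.beq (Nat.land m.1 c) 0) := rfl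
    rw [h, uncL]
    cases hb : Nat.beq (Nat.land m.1 c) 0
    · simp only [Bool.false_eq_true, if_false]
      exact ih n b
    · simp only [if_true]
      rw [force_eq]
      exact ih _ _

theorem go_nil (r : ℕ → ℕ → Bool) (c x : ℕ) : go r c [] x = true := rfl

theorem go_cons (r : ℕ → ℕ → Bool) (c j : ℕ) (l : List ℕ) (x : ℕ)
    (h : go r c (j :: l) x = true) :
    (x.testBit j = true ∧ go r c l x = true) ∨
    (x.testBit j = false ∧ r (c ||| 1 <<< j) x = true ∧ go r c l (x ||| 1 <<< j) = true) := by
  have e : go r c (j :: l) x = Bool.rec (Bool.rec false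
      (force (Nat.lor x (Nat.shiftLeft 1 j)) (go r c l)) (r (Nat.lor c (Nat.shiftLeft 1 j)) x))
      (go r c l x) (Nat.testBit x j) := rfl
  rw [e] at h
  cases hx : Nat.testBit x j
  · right
    rw [hx] at h
    refine ⟨rfl, ?_⟩
    cases hr : r (Nat.lor c (Nat.shiftLeft 1 j)) x
    · rw [hr] at h
      exact absurd h (by simp)
    · rw [hr] at h
      refine ⟨rfl, ?_⟩
      rw [force_eq] at h
      exact h
  · left
    rw [hx] at h
    exact ⟨rfl, h⟩

theorem s2_zero (A B : List (ℕ × List ℕ)) (d c x : ℕ) : s2 A B 0 d c x = false := rfl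

theorem s2_succ (A B : List (ℕ × List ℕ)) (f d c x : ℕ) (h : s2 A B (f + 1) d c x = true) :
    critL c A 0 ≠ c ∨ d + (uncL c B 0 []).1 ≤ 10 ∨ ((uncL c B 0 []).1 = 0 ∧ d = 13) ∨
      ((uncL c B 0 []).1 ≠ 0 ∧ go (s2 A B f (d + 1)) c (uncL c B 0 []).2 x = true) := by
  have e : s2 A B (f + 1) d c x = force c fun c => force d fun d =>
      crit c (fun a => Bool.rec true (
        unc c (fun n l => Bool.rec (Nat.rec (motive := fun _ => Bool) (Nat.beq d 13)
          (fun _ _ => go (s2 A B f (Nat.succ d)) c l x) n) true (Nat.ble (Nat.add d n) 10)) B 0 [])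
        (Nat.beq a c)) A 0 := rfl
  rw [e, force_eq, force_eq, crit_eq] at h
  cases h1 : Nat.beq (critL c A 0) c
  · left
    intro h2
    rw [h2] at h1
    have : Nat.beq c c = true := Nat.beq_refl c
    rw [this] at h1
    exact absurd h1 (by simp)
  · right
    rw [h1] at h
    simp only at h
    rw [unc_eq] at h
    cases h2 : Nat.ble (Nat.add d (uncL c B 0 []).1) 10
    · right
      rw [h2] at h
      simp only at h
      cases h3 : (uncL c B 0 []).1 with
      | zero =>
        left
        rw [h3] at h
        exact ⟨rfl, Nat.eq_of_beq_eq_true h⟩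
      | succ n =>
        right
        rw [h3] at h
        exact ⟨Nat.succ_ne_zero n, h⟩
    · left
      exact Nat.le_of_ble_eq_true h2

/-! ## meaning -/

theorem testBit_critL (c : ℕ) (j : ℕ) (l : List (ℕ × List ℕ)) : ∀ a,
    (critL c l a).testBit j = true ↔ a.testBit j = true ∨ ∃ m ∈ l,
      (m.1 &&& c) &&& ((m.1 &&& c) - 1) = 0 ∧ m.1.testBit j = true ∧ c.testBit j = true := by
  induction l with
  | nil => intro a; simp [critL]
  | cons m l ih =>
    intro a
    rw [critL]
    split_ifs with h
    · rw [ih]
      have h' : (m.1 &&& c) &&& ((m.1 &&& c) - 1) = 0 := Nat.eq_of_beq_eq_true h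
      have h2 : (Nat.lor a (Nat.land m.1 c)).testBit j =
          (a.testBit j || (m.1.testBit j && c.testBit j)) := by
        change (a ||| (m.1 &&& c)).testBit j = _
        rw [Nat.testBit_lor, Nat.testBit_land]
      rw [h2]
      simp only [Bool.or_eq_true, Bool.and_eq_true, List.mem_cons]
      constructor
      · rintro ((h3 | h3) | ⟨m', h3, h4⟩)
        · exact Or.inl h3
        · exact Or.inr ⟨m, Or.inl rfl, h', h3⟩
        · exact Or.inr ⟨m', Or.inr h3, h4⟩
      · rintro (h3 | ⟨m', (rfl | h3), h4⟩)
        · exact Or.inl (Or.inl h3)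
        · exact Or.inl (Or.inr h4.2)
        · exact Or.inr ⟨m', h3, h4⟩
    · rw [ih]
      have h' : ¬ (m.1 &&& c) &&& ((m.1 &&& c) - 1) = 0 := by
        intro h2
        apply h
        change Nat.beq ((m.1 &&& c) &&& ((m.1 &&& c) - 1)) 0 = true
        rw [h2]
        rfl
      simp only [List.mem_cons]
      constructor
      · rintro (h3 | ⟨m', h3, h4⟩)
        · exact Or.inl h3
        · exact Or.inr ⟨m', Or.inr h3, h4⟩
      · rintro (h3 | ⟨m', (rfl | h3), h4⟩)
        · exact Or.inl h3
        · exact absurd h4.1 h'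
        · exact Or.inr ⟨m', h3, h4⟩

/-- the sets of `l` disjoint from `c` -/
def uncS (c : ℕ) (l : List (ℕ × List ℕ)) : List (ℕ × List ℕ) := l.filter fun m => (m.1 &&& c) == 0

theorem uncS_pos {c : ℕ} {m : ℕ × List ℕ} (l : List (ℕ × List ℕ)) (h : m.1 &&& c = 0) :
    uncS c (m :: l) = m :: uncS c l := by
  simp [uncS, h]

theorem uncS_neg {c : ℕ} {m : ℕ × List ℕ} (l : List (ℕ × List ℕ)) (h : ¬ m.1 &&& c = 0) :
    uncS c (m :: l) = uncS c l := by
  simp [uncS, h]

theorem uncL_fst (c : ℕ) (l : List (ℕ × List ℕ)) : ∀ n b,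
    (uncL c l n b).1 = n + (uncS c l).length := by
  induction l with
  | nil => intro n b; rfl
  | cons m l ih =>
    intro n b
    rw [uncL]
    split_ifs with h
    · have h' : (m.1 &&& c) = 0 := Nat.eq_of_beq_eq_true h
      rw [ih, uncS_pos l h', List.length_cons]
      omega
    · have h' : ¬ (m.1 &&& c) = 0 := by
        intro h2
        apply h
        change Nat.beq (m.1 &&& c) 0 = true
        rw [h2]
        rfl
      rw [ih, uncS_neg l h']

theorem uncL_snd (c : ℕ) (l : List (ℕ × List ℕ)) : ∀ n b,
    (uncL c l n b).2 = b ∧ uncS c l = [] ∨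
      ∃ m ∈ l, m.1 &&& c = 0 ∧ (uncL c l n b).2 = m.2 := by
  induction l with
  | nil => intro n b; left; exact ⟨rfl, rfl⟩
  | cons m l ih =>
    intro n b
    rw [uncL]
    split_ifs with h
    · right
      have h' : (m.1 &&& c) = 0 := Nat.eq_of_beq_eq_true h
      rcases ih (n + 1) m.2 with h2 | ⟨m', h2, h3⟩
      · exact ⟨m, List.mem_cons_self, h', h2.1⟩
      · exact ⟨m', List.mem_cons_of_mem _ h2, h3⟩
    · have h' : ¬ (m.1 &&& c) = 0 := by
        intro h2
        apply h
        change Nat.beq (m.1 &&& c) 0 = true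
        rw [h2]
        rfl
      rcases ih n b with h2 | ⟨m', h2, h3⟩
      · left
        rw [uncS_neg l h']
        exact h2
      · right
        exact ⟨m', List.mem_cons_of_mem _ h2, h3⟩

/-- `H` is a minimal hitting set for the sets of `A` -/
def MinHit (A : List (ℕ × List ℕ)) (H : Finset ℕ) : Prop :=
  (∀ m ∈ A, ∃ j ∈ H, m.1.testBit j = true) ∧
    ∀ j ∈ H, ∃ m ∈ A, m.1.testBit j = true ∧ ∀ j' ∈ H, m.1.testBit j' = true → j' = j

/-- the set of the bits of `c` below `35` -/
def bits (c : ℕ) : Finset ℕ := (Finset.range 35).filter fun j => c.testBit j = true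

theorem mem_bits {c j : ℕ} : j ∈ bits c ↔ j < 35 ∧ c.testBit j = true := by
  simp [bits]

theorem land_eq_zero_iff {m c : ℕ} : m &&& c = 0 ↔ ∀ j, ¬ (m.testBit j = true ∧ c.testBit j = true) := by
  constructor
  · intro h j h2
    have h3 : (m &&& c).testBit j = false := by rw [h]; exact Nat.zero_testBit j
    rw [Nat.testBit_land, h2.1, h2.2] at h3
    exact absurd h3 (by simp)
  · intro h
    apply Nat.eq_of_testBit_eq
    intro j
    rw [Nat.testBit_land, Nat.zero_testBit]
    by_contra h2
    simp only [Bool.not_eq_false, Bool.and_eq_true] at h2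
    exact h j h2

theorem two_pow_crit (j : ℕ) : (2 ^ j) &&& (2 ^ j - 1) = 0 := by
  rw [Nat.and_two_pow_sub_one_eq_mod, Nat.mod_self]

theorem testBit_shift {c j i : ℕ} :
    (c ||| 1 <<< j).testBit i = true ↔ c.testBit i = true ∨ i = j := by
  rw [Nat.testBit_lor, Bool.or_eq_true, Nat.one_shiftLeft, Nat.testBit_two_pow]
  simp only [decide_eq_true_eq]
  constructor <;> rintro (h | h)
  · exact Or.inl h
  · exact Or.inr h.symm
  · exact Or.inl h
  · exact Or.inr h.symm

section
variable {A : List (ℕ × List ℕ)} {H : Finset ℕ}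

theorem crit_of_min (hH : MinHit A H) {c : ℕ} (hc : ∀ j, c.testBit j = true → j ∈ H) :
    critL c A 0 = c := by
  apply Nat.eq_of_testBit_eq
  intro j
  rw [Bool.eq_iff_iff, testBit_critL]
  constructor
  · rintro (h | ⟨m, _, _, _, h⟩)
    · rw [Nat.zero_testBit] at h
      exact absurd h (by simp)
    · exact h
  · intro h
    right
    obtain ⟨m, hm, h1, h2⟩ := hH.2 j (hc j h)
    refine ⟨m, hm, ?_, h1, h⟩
    have h3 : m.1 &&& c = 2 ^ j := by
      apply Nat.eq_of_testBit_eq
      intro i
      rw [Nat.testBit_land, Nat.testBit_two_pow, Bool.eq_iff_iff]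
      simp only [Bool.and_eq_true, decide_eq_true_eq]
      constructor
      · rintro ⟨h4, h5⟩
        exact (h2 i (hc i h5) h4).symm
      · rintro rfl
        exact ⟨h1, h⟩
    rw [h3]
    exact two_pow_crit j

theorem card_le_unc (hH : MinHit A H) {c : ℕ} (hH35 : ∀ j ∈ H, j < 35)
    (hc : ∀ j, c.testBit j = true → j ∈ H) {B : List (ℕ × List ℕ)} (hB : ∀ m ∈ A, m ∈ B) :
    H.card ≤ (bits c).card + (uncS c B).length := by
  classical
  have h1 : H ⊆ bits c ∪ (H \ bits c) := by
    intro j hj
    by_cases h : j ∈ bits c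
    · exact Finset.mem_union_left _ h
    · exact Finset.mem_union_right _ (Finset.mem_sdiff.2 ⟨hj, h⟩)
  have h2 : (H \ bits c).card ≤ (uncS c B).toFinset.card := by
    choose! g hg1 hg2 hg3 using hH.2
    refine Finset.card_le_card_of_injOn g ?_ ?_
    · intro j hj
      rw [Finset.mem_coe, Finset.mem_sdiff] at hj
      rw [Finset.mem_coe, List.mem_toFinset, uncS, List.mem_filter]
      refine ⟨hB _ (hg1 j hj.1), ?_⟩
      rw [beq_iff_eq, land_eq_zero_iff]
      rintro i ⟨h3, h4⟩
      have h5 := hg3 j hj.1 i (hc i h4) h3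
      subst h5
      exact hj.2 (mem_bits.2 ⟨hH35 _ hj.1, h4⟩)
    · intro i hi j hj hij
      rw [Finset.mem_coe, Finset.mem_sdiff] at hi hj
      have h3 := hg2 i hi.1
      rw [hij] at h3
      exact hg3 j hj.1 i hi.1 h3
  calc H.card ≤ (bits c ∪ (H \ bits c)).card := Finset.card_le_card h1
    _ ≤ (bits c).card + (H \ bits c).card := Finset.card_union_le _ _
    _ ≤ (bits c).card + (uncS c B).length :=
      Nat.add_le_add_left (h2.trans (List.toFinset_card_le _)) _

theorem search_sound {B : List (ℕ × List ℕ)} (hAB : ∀ m, m ∈ A ↔ m ∈ B)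
    (hb : ∀ m ∈ B, ∀ j, j ∈ m.2 ↔ m.1.testBit j = true) (hH : MinHit A H)
    (hH35 : ∀ j ∈ H, j < 35) : ∀ (f d c x : ℕ), s2 A B f d c x = true →
    (∀ j, c.testBit j = true → j ∈ H) → (∀ j ∈ H, x.testBit j = false) → d = (bits c).card →
    H.card ≤ 10 ∨ H.card = 13 := by
  intro f
  induction f with
  | zero => intro d c x h; exact absurd h (by rw [s2_zero]; simp)
  | succ f ih =>
    intro d c x h hc hx hd
    rcases s2_succ A B f d c x h with h1 | h1 | ⟨h1, h2⟩ | ⟨h1, h2⟩
    · exact absurd (crit_of_min hH hc) h1
    · left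
      rw [uncL_fst, Nat.zero_add] at h1
      have := card_le_unc hH hH35 hc fun m hm => (hAB m).1 hm
      omega
    · right
      rw [uncL_fst, Nat.zero_add] at h1
      have h3 := card_le_unc hH hH35 hc fun m hm => (hAB m).1 hm
      have h4 : (bits c).card ≤ H.card := by
        apply Finset.card_le_card
        intro j hj
        exact hc j (mem_bits.1 hj).2
      omega
    · rw [uncL_fst, Nat.zero_add] at h1
      rcases uncL_snd c B 0 [] with h3 | ⟨m, hm, hm0, h3⟩
      · rw [h3.2] at h1
        exact absurd rfl h1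
      · rw [h3] at h2
        obtain ⟨w, hw, hwm⟩ := hH.1 m ((hAB m).2 hm)
        have key : ∀ (l : List ℕ) (x : ℕ), (∀ j ∈ l, m.1.testBit j = true) → w ∈ l →
            (∀ j ∈ H, x.testBit j = false) → go (s2 A B f (d + 1)) c l x = true →
            H.card ≤ 10 ∨ H.card = 13 := by
          intro l
          induction l with
          | nil => intro x _ hw; exact absurd hw (by simp)
          | cons j l ihl =>
            intro x hl hwl hx hgo
            rcases go_cons _ _ _ _ _ hgo with ⟨h4, h5⟩ | ⟨h4, h5, h6⟩
            · have hne : w ≠ j := by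
                rintro rfl
                rw [hx w hw] at h4
                exact absurd h4 (by simp)
              refine ihl x (fun i hi => hl i (List.mem_cons_of_mem _ hi)) ?_ hx h5
              rcases List.mem_cons.1 hwl with h7 | h7
              · exact absurd h7 hne
              · exact h7
            · by_cases hjH : j ∈ H
              · refine ih (d + 1) (c ||| 1 <<< j) x h5 ?_ hx ?_
                · intro i hi
                  rcases testBit_shift.1 hi with h7 | h7
                  · exact hc i h7
                  · rw [h7]; exact hjH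
                · have hjc : j ∉ bits c := by
                    intro h7
                    exact (land_eq_zero_iff.1 hm0) j
                      ⟨hl j List.mem_cons_self, (mem_bits.1 h7).2⟩
                  have e : bits (c ||| 1 <<< j) = insert j (bits c) := by
                    ext i
                    rw [Finset.mem_insert, mem_bits, mem_bits, testBit_shift]
                    constructor
                    · rintro ⟨h7, h8 | h8⟩
                      · exact Or.inr ⟨h7, h8⟩
                      · exact Or.inl h8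
                    · rintro (h7 | ⟨h7, h8⟩)
                      · subst h7
                        exact ⟨hH35 _ hjH, Or.inr rfl⟩
                      · exact ⟨h7, Or.inl h8⟩
                  rw [e, Finset.card_insert_of_notMem hjc, hd]
              · refine ihl (x ||| 1 <<< j) (fun i hi => hl i (List.mem_cons_of_mem _ hi)) ?_ ?_ h6
                · rcases List.mem_cons.1 hwl with h7 | h7
                  · rw [h7] at hw
                    exact absurd hw hjH
                  · exact h7
                · intro i hi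
                  by_contra h7
                  rw [Bool.not_eq_false, testBit_shift] at h7
                  rcases h7 with h7 | h7
                  · rw [hx i hi] at h7
                    exact absurd h7 (by simp)
                  · rw [h7] at hi
                    exact hjH hi
        exact key m.2 x (fun j hj => (hb m hm j).1 hj) ((hb m hm w).2 hwm) hx h2

end

end Pool.Agent.W946.Hole
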