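import Pool.Agent.W946.Hole.Defs
import Pool.Agent.W946.Hole.Sound

/-!
# The spectrum of the `2`-`(7, 3, 4)` design
-/

set_option autoImplicit false

namespace Pool.Agent.W946.Hole

/-- the triple number `i` -/
def tri (i : ℕ) : Finset (Fin 7) :=
  Finset.univ.filter fun a : Fin 7 => (tms.getD i 0).testBit a.val = true

theorem mem_tri {i : ℕ} {a : Fin 7} : a ∈ tri i ↔ (tms.getD i 0).testBit a.val = true := by
  simp [tri]

theorem tri_card : ∀ i < 35, (tri i).card = 3 := by decide +kernel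

theorem tri_surj : ∀ b : Finset (Fin 7), b.card = 3 → ∃ i < 35, tri i = b := by decide +kernel

theorem tri_inj : ∀ i < 35, ∀ j < 35, tri i = tri j → i = j := by decide +kernel

theorem PML_pair : ∀ q ∈ PML, ∃ a b : Fin 7, a ≠ b ∧ ∀ i < 35,
    q.testBit i = ((tms.getD i 0).testBit a.val && (tms.getD i 0).testBit b.val) := by
  decide +kernel

theorem pair_PML : ∀ a b : Fin 7, a ≠ b → ∃ q ∈ PML, ∀ i < 35,
    q.testBit i = ((tms.getD i 0).testBit a.val && (tms.getD i 0).testBit b.val) := by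
  decide +kernel

theorem PML_card : ∀ q ∈ PML, (bits q).card = 5 := by decide +kernel

theorem PML_cover : ∀ i < 35, ∃ q ∈ PML, q.testBit i = true := by decide +kernel

theorem fan_card : ∀ g ∈ fan, ∀ q ∈ PML,
    ((bits q).filter fun i => g.testBit i = false).card = 4 := by decide +kernel

theorem Mb_fan : ∀ p ∈ Mb, ∃ g ∈ fan, ∀ i < 35,
    p.1.testBit i = (g.testBit i && !F0.testBit i) := by decide +kernel

theorem fan_Mb : ∀ g ∈ fan, g ≠ F0 → ∃ p ∈ Mb, ∀ i < 35,
    p.1.testBit i = (g.testBit i && !F0.testBit i) := by decide +kernel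

theorem Mb_ne : ∀ p ∈ Mb, ∃ i < 35, p.1.testBit i = true := by decide +kernel

theorem Mb_lt : ∀ p ∈ Mb, p.1 < 2 ^ 35 := by decide +kernel

theorem Mb_list1 : ∀ p ∈ Mb, ∀ j ∈ p.2, p.1.testBit j = true := by decide +kernel

theorem Mb_list2 : ∀ p ∈ Mb, ∀ j < 35, p.1.testBit j = true → j ∈ p.2 := by decide +kernel

theorem F0_mem : F0 ∈ fan := by decide +kernel

theorem four_mem : ∀ m ∈ four, ∃ p ∈ Mb, p.1 = m := by decide +kernel

theorem four_disj : ∀ m ∈ four, ∀ m' ∈ four, m ≠ m' → m &&& m' = 0 := by decide +kernel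

theorem four_card : four.toFinset.card = 7 := by decide +kernel

theorem exs_hit : ∀ e ∈ exs, ∀ m ∈ Mb, ∃ j < 35, e.testBit j = true ∧ m.1.testBit j = true := by
  decide +kernel

theorem exs_crit : ∀ e ∈ exs, ∀ j < 35, e.testBit j = true → ∃ m ∈ Mb, m.1.testBit j = true ∧
    ∀ j' < 35, e.testBit j' = true → m.1.testBit j' = true → j' = j := by
  decide +kernel

theorem exs_F0 : ∀ e ∈ exs, ∀ j < 35, e.testBit j = true → F0.testBit j = false := by
  decide +kernel

theorem exs_card : exs.map (fun e => (bits e).card) = [7, 8, 9, 10, 13] := by decide +kernel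

/-! ## the Fano planes -/

/-- the search for all Fano planes -/
def s1 : ℕ → ℕ → Bool
  | 0, _ => false
  | f + 1, c =>
    match PML.find? (fun q => (q &&& c) == 0) with
    | none => fan.any fun g => g == c
    | some q => (List.range 35).all fun i => !(q.testBit i) ||
        (PML.any fun q' => q'.testBit i && !((q' &&& c) == 0)) || s1 f (c ||| 1 <<< i)

theorem s1_true : s1 10 0 = true := by decide +kernel

theorem s1_sound {X : Finset ℕ} (h35 : ∀ i ∈ X, i < 35)
    (hU : ∀ q ∈ PML, ∃ i ∈ X, q.testBit i = true ∧ ∀ j ∈ X, q.testBit j = true → j = i) :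
    ∀ f c, s1 f c = true → (∀ j, c.testBit j = true → j ∈ X) →
      ∃ g ∈ fan, ∀ i, i ∈ X ↔ g.testBit i = true := by
  intro f
  induction f with
  | zero => intro c h; exact absurd h (by simp [s1])
  | succ f ih =>
    intro c h hc
    rw [s1] at h
    cases hf : PML.find? (fun q => (q &&& c) == 0) with
    | none =>
      rw [hf] at h
      simp only [List.any_eq_true, beq_iff_eq] at h
      obtain ⟨g, hg, rfl⟩ := h
      refine ⟨g, hg, fun i => ⟨fun hi => ?_, fun hi => hc i hi⟩⟩
      obtain ⟨q, hq, hqi⟩ := PML_cover i (h35 i hi)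
      have h1 := List.find?_eq_none.1 hf q hq
      simp only [beq_iff_eq, land_eq_zero_iff, not_forall, not_not] at h1
      obtain ⟨j, h2, h3⟩ := h1
      obtain ⟨k, _, _, hk⟩ := hU q hq
      have h4 := hk i hi hqi
      have h5 := hk j (hc j h3) h2
      rw [h4, ← h5]
      exact h3
    | some q =>
      rw [hf] at h
      have hq := List.mem_of_find?_eq_some hf
      have hq0 : q &&& c = 0 := by
        have := List.find?_some hf
        simpa using this
      simp only [List.all_eq_true, List.mem_range] at h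
      obtain ⟨i, hi, hqi, hiU⟩ := hU q hq
      have h1 := h i (h35 i hi)
      rw [Bool.or_eq_true, Bool.or_eq_true] at h1
      rcases h1 with (h1 | h1) | h1
      · rw [hqi] at h1
        exact absurd h1 (by simp)
      · exfalso
        simp only [List.any_eq_true, Bool.and_eq_true, Bool.not_eq_true', beq_eq_false_iff_ne,
          ne_eq, land_eq_zero_iff, not_forall, not_not] at h1
        obtain ⟨q', hq', h2, j, h3, h4⟩ := h1
        obtain ⟨k, _, _, hk⟩ := hU q' hq'
        have h5 := hk i hi h2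
        have h6 := hk j (hc j h4) h3
        refine (land_eq_zero_iff.1 hq0) i ⟨hqi, ?_⟩
        rw [h5, ← h6]
        exact h4
      · refine ih _ h1 fun j hj => ?_
        rcases testBit_shift.1 hj with h2 | h2
        · exact hc j h2
        · rw [h2]; exact hi

/-- the design of the triples which are not in `g` -/
def Dsg (g : ℕ) : Finset (Finset (Fin 7)) :=
  ((Finset.range 35).filter fun i => g.testBit i = false).image tri

theorem mem_Dsg {g i : ℕ} (hi : i < 35) : tri i ∈ Dsg g ↔ g.testBit i = false := by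
  rw [Dsg, Finset.mem_image]
  constructor
  · rintro ⟨j, hj, h⟩
    rw [Finset.mem_filter, Finset.mem_range] at hj
    rw [← tri_inj j hj.1 i hi h]
    exact hj.2
  · intro h
    exact ⟨i, Finset.mem_filter.2 ⟨Finset.mem_range.2 hi, h⟩, rfl⟩

theorem card_image_tri {s : Finset ℕ} (hs : ∀ i ∈ s, i < 35) : (s.image tri).card = s.card :=
  Finset.card_image_of_injOn fun i hi j hj h => tri_inj i (hs i hi) j (hs j hj) h

theorem pair_subset {a b : Fin 7} {i : ℕ} : ({a, b} : Finset (Fin 7)) ⊆ tri i ↔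
    ((tms.getD i 0).testBit a.val && (tms.getD i 0).testBit b.val) = true := by
  rw [Bool.and_eq_true, ← mem_tri, ← mem_tri]
  constructor
  · intro h
    exact ⟨h (by simp), h (by simp)⟩
  · rintro ⟨h1, h2⟩ x hx
    rw [Finset.mem_insert, Finset.mem_singleton] at hx
    rcases hx with rfl | rfl
    · exact h1
    · exact h2

theorem Dsg_design {g : ℕ} (hg : g ∈ fan) : IsDesign 2 7 3 4 (Dsg g) := by
  constructor
  · intro b hb
    rw [Dsg, Finset.mem_image] at hb
    obtain ⟨i, hi, rfl⟩ := hb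
    rw [Finset.mem_filter, Finset.mem_range] at hi
    exact tri_card i hi.1
  · intro T hT
    obtain ⟨a, b, hab, rfl⟩ := Finset.card_eq_two.1 hT
    obtain ⟨q, hq, hqi⟩ := pair_PML a b hab
    have e : ((Dsg g).filter fun x => {a, b} ⊆ x) =
        ((bits q).filter fun i => g.testBit i = false).image tri := by
      ext x
      rw [Finset.mem_filter, Finset.mem_image]
      constructor
      · rintro ⟨h1, h2⟩
        rw [Dsg, Finset.mem_image] at h1
        obtain ⟨i, hi, rfl⟩ := h1
        rw [Finset.mem_filter, Finset.mem_range] at hi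
        refine ⟨i, Finset.mem_filter.2 ⟨mem_bits.2 ⟨hi.1, ?_⟩, hi.2⟩, rfl⟩
        rw [hqi i hi.1]
        exact pair_subset.1 h2
      · rintro ⟨i, hi, rfl⟩
        rw [Finset.mem_filter, mem_bits] at hi
        refine ⟨(mem_Dsg hi.1.1).2 hi.2, ?_⟩
        rw [pair_subset, ← hqi i hi.1.1]
        exact hi.1.2
    rw [e, card_image_tri, fan_card g hg q hq]
    intro i hi
    exact (mem_bits.1 (Finset.mem_filter.1 hi).1).1

/-- every design is the complement of a Fano plane -/
theorem design_fan {B : Finset (Finset (Fin 7))} (hB : IsDesign 2 7 3 4 B) :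
    ∃ g ∈ fan, ∀ i < 35, tri i ∉ B ↔ g.testBit i = true := by
  classical
  set X : Finset ℕ := (Finset.range 35).filter fun i => tri i ∉ B with hX
  have h35 : ∀ i ∈ X, i < 35 := fun i hi => Finset.mem_range.1 (Finset.mem_filter.1 hi).1
  have hU : ∀ q ∈ PML, ∃ i ∈ X, q.testBit i = true ∧
      ∀ j ∈ X, q.testBit j = true → j = i := by
    intro q hq
    obtain ⟨a, b, hab, hqi⟩ := PML_pair q hq
    have h4 := hB.2 {a, b} (Finset.card_pair hab)
    have e : (B.filter fun x => {a, b} ⊆ x) = ((bits q).filter fun i => tri i ∈ B).image tri := by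
      ext x
      rw [Finset.mem_filter, Finset.mem_image]
      constructor
      · rintro ⟨h1, h2⟩
        obtain ⟨i, hi, rfl⟩ := tri_surj x (hB.1 x h1)
        refine ⟨i, Finset.mem_filter.2 ⟨mem_bits.2 ⟨hi, ?_⟩, h1⟩, rfl⟩
        rw [hqi i hi]
        exact pair_subset.1 h2
      · rintro ⟨i, hi, rfl⟩
        rw [Finset.mem_filter, mem_bits] at hi
        refine ⟨hi.2, ?_⟩
        rw [pair_subset, ← hqi i hi.1.1]
        exact hi.1.2
    rw [e, card_image_tri fun i hi => (mem_bits.1 (Finset.mem_filter.1 hi).1).1] at h4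
    have h5 := Finset.card_filter_add_card_filter_not (s := bits q) (fun i => tri i ∈ B)
    rw [h4, PML_card q hq] at h5
    have h6 : ((bits q).filter fun i => ¬ tri i ∈ B).card = 1 := by omega
    obtain ⟨i, hi⟩ := Finset.card_eq_one.1 h6
    have h7 : ∀ j, j ∈ ((bits q).filter fun i => ¬ tri i ∈ B) ↔ j = i := by
      intro j
      rw [hi, Finset.mem_singleton]
    have h8 := (h7 i).2 rfl
    rw [Finset.mem_filter, mem_bits] at h8
    refine ⟨i, Finset.mem_filter.2 ⟨Finset.mem_range.2 h8.1.1, h8.2⟩, h8.1.2, fun j hj hqj => ?_⟩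
    refine (h7 j).1 (Finset.mem_filter.2 ⟨mem_bits.2 ⟨h35 j hj, hqj⟩, ?_⟩)
    exact (Finset.mem_filter.1 hj).2
  obtain ⟨g, hg, h⟩ := s1_sound h35 hU 10 0 s1_true
    (fun j hj => by rw [Nat.zero_testBit] at hj; exact absurd hj (by simp))
  refine ⟨g, hg, fun i hi => ?_⟩
  rw [← h i, hX, Finset.mem_filter, Finset.mem_range]
  exact ⟨fun h => ⟨hi, h⟩, fun h => h.2⟩

theorem design_eq {B : Finset (Finset (Fin 7))} (hB : ∀ b ∈ B, b.card = 3) {g : ℕ}
    (h : ∀ i < 35, tri i ∉ B ↔ g.testBit i = true) : B = Dsg g := by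
  have h' : ∀ i < 35, tri i ∈ B ↔ tri i ∈ Dsg g := by
    intro i hi
    rw [mem_Dsg hi]
    have := h i hi
    rw [← not_iff_not, this, Bool.not_eq_false]
  ext x
  constructor
  · intro hx
    obtain ⟨i, hi, rfl⟩ := tri_surj x (hB x hx)
    exact (h' i hi).1 hx
  · intro hx
    have h1 := hx
    rw [Dsg, Finset.mem_image] at h1
    obtain ⟨i, hi, rfl⟩ := h1
    rw [Finset.mem_filter, Finset.mem_range] at hi
    exact (h' i hi.1).2 hx

/-! ## defining sets and hitting sets -/

/-- the numbers of the triples of `S` -/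
def ind (S : Finset (Finset (Fin 7))) : Finset ℕ := (Finset.range 35).filter fun i => tri i ∈ S

theorem mem_ind {S : Finset (Finset (Fin 7))} {i : ℕ} : i ∈ ind S ↔ i < 35 ∧ tri i ∈ S := by
  simp [ind]

theorem mem_Dsg_cases {g : ℕ} {b : Finset (Fin 7)} (hb : b ∈ Dsg g) :
    ∃ i < 35, tri i = b ∧ g.testBit i = false := by
  rw [Dsg, Finset.mem_image] at hb
  obtain ⟨i, hi, rfl⟩ := hb
  rw [Finset.mem_filter, Finset.mem_range] at hi
  exact ⟨i, hi.1, rfl, hi.2⟩

theorem defining_iff {S : Finset (Finset (Fin 7))} (hS : S ⊆ Dsg F0) :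
    IsDefining 2 7 3 4 (Dsg F0) S ↔ ∀ p ∈ Mb, ∃ j ∈ ind S, p.1.testBit j = true := by
  constructor
  · rintro ⟨-, h⟩ p hp
    by_contra hcon
    push Not at hcon
    obtain ⟨g, hg, hpg⟩ := Mb_fan p hp
    have h1 : S ⊆ Dsg g := by
      intro b hb
      obtain ⟨i, hi, rfl, hF⟩ := mem_Dsg_cases (hS hb)
      rw [mem_Dsg hi]
      have h2 := hcon i (mem_ind.2 ⟨hi, hb⟩)
      rw [hpg i hi, hF] at h2
      simpa using h2
    have h3 := h (Dsg g) (Dsg_design hg) h1
    obtain ⟨i, hi, hpi⟩ := Mb_ne p hp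
    have h4 := hpi
    rw [hpg i hi, Bool.and_eq_true, Bool.not_eq_true'] at h4
    have h5 : tri i ∈ Dsg F0 := (mem_Dsg hi).2 h4.2
    rw [← h3, mem_Dsg hi, h4.1] at h5
    exact absurd h5 (by simp)
  · intro h
    refine ⟨hS, fun B hB hSB => ?_⟩
    obtain ⟨g, hg, hgB⟩ := design_fan hB
    have hBg := design_eq hB.1 hgB
    by_cases hgF : g = F0
    · rw [hBg, hgF]
    · exfalso
      obtain ⟨p, hp, hpg⟩ := fan_Mb g hg hgF
      obtain ⟨j, hj, hpj⟩ := h p hp
      rw [mem_ind] at hj
      rw [hpg j hj.1, Bool.and_eq_true] at hpj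
      exact (hgB j hj.1).2 hpj.1 (hSB hj.2)

theorem minDefining_iff {S : Finset (Finset (Fin 7))} (hS : S ⊆ Dsg F0) :
    IsMinDefining 2 7 3 4 (Dsg F0) S ↔ MinHit Mb (ind S) := by
  classical
  constructor
  · rintro ⟨h1, h2⟩
    have h3 := (defining_iff hS).1 h1
    refine ⟨h3, fun j hj => ?_⟩
    have hj' := mem_ind.1 hj
    have h4 := h2 (S.erase (tri j)) (Finset.erase_ssubset hj'.2)
    rw [defining_iff ((Finset.erase_subset _ _).trans hS)] at h4
    push Not at h4
    obtain ⟨p, hp, h5⟩ := h4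
    have h6 : ∀ j' ∈ ind S, p.1.testBit j' = true → j' = j := by
      intro j' hj'' h7
      by_contra hne
      have h8 := mem_ind.1 hj''
      refine h5 j' (mem_ind.2 ⟨h8.1, Finset.mem_erase.2 ⟨?_, h8.2⟩⟩) h7
      intro h9
      exact hne (tri_inj j' h8.1 j hj'.1 h9)
    obtain ⟨w, hw, hpw⟩ := h3 p hp
    refine ⟨p, hp, ?_, h6⟩
    rw [← h6 w hw hpw]
    exact hpw
  · rintro ⟨h1, h2⟩
    refine ⟨(defining_iff hS).2 h1, fun S' hS' h3 => ?_⟩
    rw [defining_iff (hS'.1.trans hS)] at h3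
    obtain ⟨b, hb, hbS'⟩ := Finset.exists_of_ssubset hS'
    obtain ⟨j, hj, rfl, _⟩ := mem_Dsg_cases (hS hb)
    obtain ⟨p, hp, h4, h5⟩ := h2 j (mem_ind.2 ⟨hj, hb⟩)
    obtain ⟨w, hw, hpw⟩ := h3 p hp
    have hw' := mem_ind.1 hw
    have h6 := h5 w (mem_ind.2 ⟨hw'.1, hS'.1 hw'.2⟩) hpw
    rw [h6] at hw'
    exact hbS' hw'.2

theorem card_ind {S : Finset (Finset (Fin 7))} (hS : S ⊆ Dsg F0) : S.card = (ind S).card := by
  have e : S = (ind S).image tri := by
    ext b
    rw [Finset.mem_image]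
    constructor
    · intro hb
      obtain ⟨i, hi, rfl, _⟩ := mem_Dsg_cases (hS hb)
      exact ⟨i, mem_ind.2 ⟨hi, hb⟩, rfl⟩
    · rintro ⟨i, hi, rfl⟩
      exact (mem_ind.1 hi).2
  conv_lhs => rw [e]
  exact card_image_tri fun i hi => (mem_ind.1 hi).1

theorem minHit_card {H : Finset ℕ} (h35 : ∀ j ∈ H, j < 35) (hH : MinHit Mb H) :
    7 ≤ H.card ∧ (H.card ≤ 10 ∨ H.card = 13) := by
  constructor
  · have h : ∀ m ∈ four, ∃ j ∈ H, m.testBit j = true := by
      intro m hm
      obtain ⟨p, hp, rfl⟩ := four_mem m hm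
      exact hH.1 p hp
    choose! g hg1 hg2 using h
    rw [← four_card]
    refine Finset.card_le_card_of_injOn g (fun m hm => hg1 m (List.mem_toFinset.1 hm)) ?_
    intro m hm m' hm' e
    by_contra hne
    have h1 := four_disj m (List.mem_toFinset.1 hm) m' (List.mem_toFinset.1 hm') hne
    refine (land_eq_zero_iff.1 h1) (g m) ⟨hg2 m (List.mem_toFinset.1 hm), ?_⟩
    rw [e]
    exact hg2 m' (List.mem_toFinset.1 hm')
  · refine search_sound (A := Mb) (B := Mb.reverse) (fun m => List.mem_reverse.symm) ?_ hH h35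
      20 0 0 0 s2_true ?_ ?_ ?_
    · intro m hm j
      rw [List.mem_reverse] at hm
      constructor
      · exact Mb_list1 m hm j
      · intro h
        have hj : j < 35 := by
          by_contra hcon
          have h1 := Nat.testBit_lt_two_pow
            (lt_of_lt_of_le (Mb_lt m hm) (Nat.pow_le_pow_right (by norm_num) (not_lt.1 hcon)))
          rw [h1] at h
          exact absurd h (by simp)
        exact Mb_list2 m hm j hj h
    · intro j hj
      rw [Nat.zero_testBit] at hj
      exact absurd hj (by simp)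
    · intro j _
      exact Nat.zero_testBit j
    · symm
      rw [Finset.card_eq_zero]
      ext j
      rw [mem_bits, Nat.zero_testBit]
      simp

theorem exs_minHit {e : ℕ} (he : e ∈ exs) : MinHit Mb (bits e) := by
  refine ⟨fun m hm => ?_, fun j hj => ?_⟩
  · obtain ⟨j, hj, h1, h2⟩ := exs_hit e he m hm
    exact ⟨j, mem_bits.2 ⟨hj, h1⟩, h2⟩
  · rw [mem_bits] at hj
    obtain ⟨m, hm, h1, h2⟩ := exs_crit e he j hj.1 hj.2
    refine ⟨m, hm, h1, fun j' hj' h3 => ?_⟩
    rw [mem_bits] at hj'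
    exact h2 j' hj'.1 hj'.2 h3

theorem exs_spec {e : ℕ} (he : e ∈ exs) : (bits e).card ∈ Spec 2 7 3 4 (Dsg F0) := by
  have hS : (bits e).image tri ⊆ Dsg F0 := by
    intro b hb
    obtain ⟨i, hi, rfl⟩ := Finset.mem_image.1 hb
    rw [mem_bits] at hi
    exact (mem_Dsg hi.1).2 (exs_F0 e he i hi.1 hi.2)
  have hi : ind ((bits e).image tri) = bits e := by
    ext i
    rw [mem_ind, Finset.mem_image]
    constructor
    · rintro ⟨h1, j, hj, h2⟩
      rw [← tri_inj j (mem_bits.1 hj).1 i h1 h2]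
      exact hj
    · intro h
      exact ⟨(mem_bits.1 h).1, i, h, rfl⟩
  refine ⟨(bits e).image tri, (minDefining_iff hS).2 ?_, card_image_tri fun i hi => (mem_bits.1 hi).1⟩
  rw [hi]
  exact exs_minHit he

theorem spec_eq : Spec 2 7 3 4 (Dsg F0) = {7, 8, 9, 10, 13} := by
  ext m
  simp only [Set.mem_insert_iff, Set.mem_singleton_iff]
  constructor
  · rintro ⟨S, hS, rfl⟩
    have h1 : S ⊆ Dsg F0 := hS.1.1
    have h2 := minHit_card (fun j hj => (mem_ind.1 hj).1) ((minDefining_iff h1).1 hS)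
    rw [← card_ind h1] at h2
    omega
  · intro hm
    have h : m ∈ exs.map (fun e => (bits e).card) := by
      rw [exs_card]
      simpa using hm
    obtain ⟨e, he, rfl⟩ := List.mem_map.1 h
    exact exs_spec he

theorem main : ∃ B : Finset (Finset (Fin 7)), IsDesign 2 7 3 4 B ∧
    Spec 2 7 3 4 B = {7, 8, 9, 10, 13} ∧ HasHole (Spec 2 7 3 4 B) := by
  refine ⟨Dsg F0, Dsg_design F0_mem, spec_eq, 10, ?_, 13, ?_, 11, ?_, ?_, ?_⟩
  · rw [spec_eq]; simp
  · rw [spec_eq]; simp
  · norm_num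
  · norm_num
  · rw [spec_eq]; simp

end Pool.Agent.W946.Hole
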