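import Mathlib

/-!
# Data and search for the minimal defining sets of the `2`-`(7, 3, 4)` design

Sets of triples of `Fin 7` are coded by natural numbers (`35` bits).
-/

set_option autoImplicit false

namespace Pool.Agent.W946.Hole

/-- the `35` triples of `{0, …, 6}`, as bit masks -/
def tms : List ℕ :=
  [7, 11, 19, 35, 67, 13, 21, 37, 69, 25, 41, 73, 49, 81, 97, 14, 22, 38, 70, 26, 42, 74, 50, 82,
  98, 28, 44, 76, 52, 84, 100, 56, 88, 104, 112]

/-- for every pair of points the set of the triples which contain it -/
def PML : List ℕ :=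
  [31, 481, 3618, 12868, 21640, 26896, 491521, 3702786, 13172740, 22151176, 27525136, 234913824,
  838926400, 1409417344, 1745092864, 6476530176, 10805576704, 13021218816, 19599986688,
  22020104192, 26860339200]

/-- the Fano plane whose complement is the design -/
def F0 : ℕ := 412107265

/-- the `30` Fano planes -/
def fan : List ℕ :=
  [412107265, 419963905, 610288129, 621287425, 1113596929, 1116739585, 2290237506, 2298552450,
  2686599204, 2701166724, 3223396392, 3229648968, 4366549058, 4378923266, 4564729892, 4580214020,
  5369827376, 5372937296, 8627953794, 8632013058, 8859164712, 8866792200, 9127465008, 9131033232,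
  17214736516, 17215653124, 17247766600, 17249141512, 17314743376, 17315201680]

/-- the `29` sets (with the lists of their elements) which have to be hit -/
def Mb : List (ℕ × List ℕ) :=
  [(4295229476, [18, 2, 5, 32]), (2686582820, [29, 21, 2, 17, 31, 5]), (9131032720, [33, 22, 29,
  15, 7, 4]), (610271232, [26, 22, 29, 21]), (8590729256, [18, 33, 3, 19, 13, 5]), (8589967624,
  [8, 33, 15, 3]), (4366532674, [18, 26, 22, 1, 6, 32]), (8627953794, [18, 33, 22, 25, 7, 1,
  13]), (9127465008, [12, 33, 29, 17, 4, 19, 5]), (17213687940, [18, 11, 2, 34, 25, 7]),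
  (8623624450, [12, 8, 33, 25, 17, 1]), (17215653124, [10, 8, 21, 2, 34, 25, 17]), (17247766600,
  [18, 11, 26, 3, 34, 19, 6]), (17249141000, [16, 8, 26, 21, 3, 34]), (2701166724, [24, 11, 29,
  15, 2, 7, 31]), (4311778564, [10, 24, 8, 15, 2, 32]), (621287424, [24, 12, 11, 26, 29, 19]),
  (4378923266, [16, 24, 12, 8, 26, 1, 32]), (3221260360, [30, 11, 15, 3, 31, 6]), (1107302400,
  [30, 12, 11, 25]), (5368778800, [16, 30, 12, 4, 5, 32]), (3223396392, [16, 30, 21, 3, 31, 13,
  5]), (1113596928, [10, 30, 22, 21, 25, 13]), (5372937296, [10, 30, 22, 15, 4, 6, 32]),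
  (17310720, [10, 24, 19, 13]), (2147614786, [17, 1, 31, 6]), (2164334722, [16, 24, 7, 1, 31,
  13]), (17180525648, [10, 34, 17, 4, 19, 6]), (17179934864, [16, 34, 7, 4])]

/-- seven disjoint ones -/
def four : List ℕ :=
  [4295229476, 610271232, 8589967624, 1107302400, 17310720, 2147614786, 17179934864]

/-- minimal hitting sets of the sizes `7`, `8`, `9`, `10`, `13` -/
def exs : List ℕ :=
  [2100254, 2140386, 2100700, 2305144, 3814763652]

/-! ## the search (defined with recursors, for the evaluation by the kernel) -/

/-- evaluation of the argument -/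
noncomputable def force (n : ℕ) (k : ℕ → Bool) : Bool :=
  Nat.rec (motive := fun _ => Bool) (k 0) (fun m _ => k (Nat.succ m)) n

/-- the union of the intersections of `c` with the sets of `l` which have at most one element -/
noncomputable def crit (c : ℕ) (k : ℕ → Bool) (l : List (ℕ × List ℕ)) : ℕ → Bool :=
  List.rec (motive := fun _ => ℕ → Bool) k (fun m _ ih a => force (Nat.land m.1 c) fun y =>
    Bool.rec (ih a) (force (Nat.lor a y) ih) (Nat.beq (Nat.land y (y - 1)) 0)) l

/-- the number of the sets of `l` which are disjoint from `c`, and the last one -/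
noncomputable def unc (c : ℕ) (k : ℕ → List ℕ → Bool) (l : List (ℕ × List ℕ)) :
    ℕ → List ℕ → Bool :=
  List.rec (motive := fun _ => ℕ → List ℕ → Bool) k (fun m _ ih n b =>
    Bool.rec (ih n b) (force (Nat.succ n) (fun n => ih n m.2)) (Nat.beq (Nat.land m.1 c) 0)) l

/-- branching on the elements of a set which has to be hit -/
noncomputable def go (r : ℕ → ℕ → Bool) (c : ℕ) (l : List ℕ) : ℕ → Bool :=
  List.rec (motive := fun _ => ℕ → Bool) (fun _ => true) (fun j _ ih x =>
    Bool.rec (Bool.rec false (force (Nat.lor x (Nat.shiftLeft 1 j)) ih)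
      (r (Nat.lor c (Nat.shiftLeft 1 j)) x)) (ih x) (Nat.testBit x j)) l

/-- the search: all minimal hitting sets which contain `c` (`d` elements) and are disjoint from `x`
have at most `10` elements or `13` elements -/
noncomputable def s2 (A B : List (ℕ × List ℕ)) (f : ℕ) : ℕ → ℕ → ℕ → Bool :=
  Nat.rec (motive := fun _ => ℕ → ℕ → ℕ → Bool) (fun _ _ _ => false)
    (fun _ ih d c x => force c fun c => force d fun d =>
      crit c (fun a => Bool.rec true (
        unc c (fun n l => Bool.rec (Nat.rec (motive := fun _ => Bool) (Nat.beq d 13)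
          (fun _ _ => go (ih (Nat.succ d)) c l x) n) true (Nat.ble (Nat.add d n) 10)) B 0 [])
        (Nat.beq a c)) A 0) f

theorem s2_true : s2 Mb Mb.reverse 20 0 0 0 = true := by decide +kernel

end Pool.Agent.W946.Hole
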